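import Pool.Agent.H73.SMD.Stmts

/-!
# Board SMD, row NUU: the complex normal vector
-/

set_option autoImplicit false

open Set Filter Topology MeasureTheory Metric

namespace Pool.SMD

open Pool.PHS Pool.LPC

theorem NUU_thm : NUUStmt := by
  intro r x h
  obtain ⟨ξ, hξ⟩ : ∃ ξ, fderiv ℝ r x ξ ≠ 0 := by
    by_contra hc
    push Not at hc
    exact h (ContinuousLinearMap.ext hc)
  generalize fderiv ℝ r x = A at *
  obtain ⟨l, hl1, hl2⟩ : ∃ l : ℂ, l.re = A ξ ∧ l.im = -(A (Complex.I • ξ)) :=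
    ⟨⟨A ξ, -(A (Complex.I • ξ))⟩, rfl, rfl⟩
  have hl : l ≠ 0 := fun h0 => hξ (by rw [← hl1, h0, Complex.zero_re])
  have key : ∀ w : ℂ, A (w • ξ) = (w * l).re := by
    intro w
    have e : w • ξ = w.re • ξ + w.im • (Complex.I • ξ) := by
      conv_lhs => rw [← Complex.re_add_im w]
      rw [add_smul, mul_smul, Complex.coe_smul, Complex.coe_smul]
    rw [e, map_add, map_smul, map_smul, Complex.mul_re, hl1, hl2]
    simp only [smul_eq_mul]
    ring
  refine ⟨l⁻¹ • ξ, fun c => ?_⟩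
  rw [smul_smul, key, mul_assoc, inv_mul_cancel₀ hl, mul_one]

end Pool.SMD
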